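import Pool.Agent.TH755.BE.Pos
import Pool.Agent.TH755.BE.NegC

/-!
# Exponential circuit lower bounds for E and oracles tossed with biased coins

The exact bias up to which a random oracle, tossed by an adversary, forces exponential circuit lower
bounds for the class `E` relative to the oracle. The threshold is at certainty: the bounds hold if
the adversary fails with probability `1 / poly` at some lengths in every (or in infinitely many)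
windows `l, l + 1, ..., l ^ K`, and otherwise he can make the whole of `E` easy.
-/

set_option autoImplicit false

namespace Pool.Agent.Results.MP_5f97e6_lc.BiasedOracles

open Pool.Agent.NPC Pool.Agent.H620R2.Gauge MeasureTheory Filter
open Pool.Agent.H622R2.Exp (InTime Lin)
open Pool.Agent.H622R2.Ckt (Small)
open Pool.Agent.W900.BC (Biased)

theorem result (ε : ℕ → ℝ) (hε : ∀ n, 0 ≤ ε n) :
    ((∃ K : ℕ, ∀ᶠ l : ℕ in atTop, ∃ m, l ≤ m ∧ m ≤ l ^ K ∧ 1 / (l : ℝ) ^ K ≤ 1 / 2 - ε m) →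
      ∀ μ : Measure Oracle, IsProbabilityMeasure μ → Biased ε μ →
        ∀ᵐ A ∂μ, ∃ L, InTime Lin A L ∧ ∃ δ : ℝ, 0 < δ ∧
          ∀ᶠ n : ℕ in atTop, ¬ Small A L (2 ^ (δ * n)) n) ∧
    ((¬ ∃ K : ℕ, ∀ᶠ l : ℕ in atTop, ∃ m, l ≤ m ∧ m ≤ l ^ K ∧ 1 / (l : ℝ) ^ K ≤ 1 / 2 - ε m) →
      ∃ μ : Measure Oracle, IsProbabilityMeasure μ ∧ Biased ε μ ∧
        ∀ᵐ A ∂μ, ∀ L, InTime Lin A L → ∀ δ : ℝ, 0 < δ →
          ∃ᶠ n : ℕ in atTop, Small A L (2 ^ (δ * n)) n) ∧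
    ((∃ K : ℕ, ∃ᶠ m : ℕ in atTop, 1 / (m : ℝ) ^ K ≤ 1 / 2 - ε m) →
      ∀ μ : Measure Oracle, IsProbabilityMeasure μ → Biased ε μ →
        ∀ᵐ A ∂μ, ∃ L, InTime Lin A L ∧ ∃ δ : ℝ, 0 < δ ∧
          ∃ᶠ n : ℕ in atTop, ¬ Small A L (2 ^ (δ * n)) n) ∧
    ((¬ ∃ K : ℕ, ∃ᶠ m : ℕ in atTop, 1 / (m : ℝ) ^ K ≤ 1 / 2 - ε m) →
      ∃ μ : Measure Oracle, IsProbabilityMeasure μ ∧ Biased ε μ ∧
        ∀ᵐ A ∂μ, ∀ L, InTime Lin A L → ∀ δ : ℝ, 0 < δ →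
          ∀ᶠ n : ℕ in atTop, Small A L (2 ^ (δ * n)) n) := by
  refine ⟨?_, Pool.Agent.TH755.BE.negA hε, ?_, Pool.Agent.TH755.BE.negB hε⟩
  · rintro ⟨K, hK⟩ μ hμ h
    exact Pool.Agent.TH755.BE.posA hK h
  · rintro ⟨K, hK⟩ μ hμ h
    exact Pool.Agent.TH755.BE.posB hK h

end Pool.Agent.Results.MP_5f97e6_lc.BiasedOracles
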