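import Pool.Agent.TH707.EC.FinalE

/-!
# How many strings of a random oracle have to be changed to give `E` small circuits?

Relative to almost every oracle `O`, some language in `E` requires circuits of exponential size
(circuits with gates for the oracle). An adversary who knows `O` changes, for all large `n`, at most
`g n` of the strings of length at most `n`; the result is the oracle `A`.

* If `g` is polynomially bounded, then for almost every `O` and all these `A`, some language in `E^A`
  still requires circuits of size `2 ^ (ε n)` for all large `n`. Otherwise every oracle `O` can be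
  changed such that every language in `E^A`, and even in `EXP^A`, has, for every `ε > 0`, circuits of
  size less than `2 ^ (ε n)` for infinitely many `n`. (Polynomially bounded means here that for some
  `k` and all large `n` there is `m ≥ n` with `g m ≤ n ^ k`; if `g` is nondecreasing, this says
  that `g n ≤ n ^ k` for all large `n`.)
* The same for infinitely many instead of all large input lengths: if `g n ≤ n ^ k` for some `k` and
  infinitely many `n`, then for almost every `O` and all these `A`, some language in `E^A` requires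
  circuits of size `2 ^ (ε n)` for infinitely many `n`. Otherwise every oracle `O` can be changed
  such that every language in `EXP^A` has, for every `ε > 0`, circuits of size less than
  `2 ^ (ε n)` for all large `n`.
-/

set_option autoImplicit false

namespace Pool.Agent.Results.MP_5f97e6_lc.ChangedStrings

open Pool.Agent.NPC Pool.Agent.H620R2.Gauge
open Pool.Agent.H622R2.Exp (InTime Lin Pol)
open Pool.Agent.H622R2.Ckt
open Pool.Agent.W900.CH (Close)
open Pool.Agent.H628R3.RO (randomOracle)
open MeasureTheory Filter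

theorem result (g : ℕ → ℝ) :
    ((∃ k : ℕ, ∀ᶠ n : ℕ in atTop, ∃ m : ℕ, n ≤ m ∧ g m ≤ (n : ℝ) ^ k) →
      ∀ᵐ O ∂randomOracle, ∀ A : Oracle, Close g O A →
        ∃ L, InTime Lin A L ∧ ∃ ε : ℝ, 0 < ε ∧
          ∀ᶠ n : ℕ in atTop, ¬ Small A L (2 ^ (ε * n)) n) ∧
    ((¬ ∃ k : ℕ, ∀ᶠ n : ℕ in atTop, ∃ m : ℕ, n ≤ m ∧ g m ≤ (n : ℝ) ^ k) →
      ∀ O : Oracle, ∃ A : Oracle, Close g O A ∧
        ∀ L, InTime Pol A L → ∀ ε : ℝ, 0 < ε →
          ∃ᶠ n : ℕ in atTop, Small A L (2 ^ (ε * n)) n) ∧
    ((∃ k : ℕ, ∃ᶠ n : ℕ in atTop, g n ≤ (n : ℝ) ^ k) →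
      ∀ᵐ O ∂randomOracle, ∀ A : Oracle, Close g O A →
        ∃ L, InTime Lin A L ∧ ∃ ε : ℝ, 0 < ε ∧
          ∃ᶠ n : ℕ in atTop, ¬ Small A L (2 ^ (ε * n)) n) ∧
    ((¬ ∃ k : ℕ, ∃ᶠ n : ℕ in atTop, g n ≤ (n : ℝ) ^ k) →
      ∀ O : Oracle, ∃ A : Oracle, Close g O A ∧
        ∀ L, InTime Pol A L → ∀ ε : ℝ, 0 < ε →
          ∀ᶠ n : ℕ in atTop, Small A L (2 ^ (ε * n)) n) :=
  Pool.Agent.TH707.EC.changedE g

end Pool.Agent.Results.MP_5f97e6_lc.ChangedStrings
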