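import Pool.Agent.TH707.EC.FinalE

/-!
# The size of the set of the oracles relative to which `E` does not require exponential circuits

The exceptional set `{A : no language in E^A requires circuits of size 2 ^ (ε n), ε > 0, for all
large n}` (the circuits have gates for the oracle `A`) is a Lebesgue null set. Here its exact size
is determined on the scale of all gauges: for a gauge `f`, it is a null set for `f` if and only if
there is `k` such that for all large `l` some `N ≥ 2 ^ l` has `f N ≤ l ^ k` (if `f` is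
nondecreasing: `f N ≤ (log N) ^ k` for some `k` and all large `N`). The same criterion holds for all
sets `S` of oracles between

* the set of the `A` such that all languages in `EXP^A` have, for every `ε > 0`, circuits of size
  less than `2 ^ (ε n)` for infinitely many `n`, and
* the exceptional set.

For the stronger failure (no language in `E^A` requires circuits of size `2 ^ (ε n)` for infinitely
many `n`) the criterion is: for some `k`, `f N ≤ (log N) ^ k` for infinitely many `N`.
-/

set_option autoImplicit false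

namespace Pool.Agent.Results.MP_5f97e6_lc.GaugeThreshold

open Pool.Agent.NPC Pool.Agent.H620R2.Gauge
open Pool.Agent.H622R2.Exp (InTime Lin Pol)
open Pool.Agent.H622R2.Ckt
open Filter

theorem result (f : ℕ → ℝ) :
    (∀ S : Set Oracle,
      (∀ A : Oracle, (∀ L, InTime Pol A L → ∀ ε : ℝ, 0 < ε →
        ∃ᶠ n : ℕ in atTop, Small A L (2 ^ (ε * n)) n) → A ∈ S) →
      (∀ A ∈ S, ¬ ∃ L, InTime Lin A L ∧ ∃ ε : ℝ, 0 < ε ∧
        ∀ᶠ n : ℕ in atTop, ¬ Small A L (2 ^ (ε * n)) n) →
      (Null f S ↔ ∃ k : ℕ, ∀ᶠ l : ℕ in atTop, ∃ N : ℕ, 2 ^ l ≤ N ∧ f N ≤ (l : ℝ) ^ k)) ∧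
    (∀ S : Set Oracle,
      (∀ A : Oracle, (∀ L, InTime Pol A L → ∀ ε : ℝ, 0 < ε →
        ∀ᶠ n : ℕ in atTop, Small A L (2 ^ (ε * n)) n) → A ∈ S) →
      (∀ A ∈ S, ¬ ∃ L, InTime Lin A L ∧ ∃ ε : ℝ, 0 < ε ∧
        ∃ᶠ n : ℕ in atTop, ¬ Small A L (2 ^ (ε * n)) n) →
      (Null f S ↔ ∃ k : ℕ, ∃ᶠ N : ℕ in atTop, f N ≤ (Real.logb 2 N) ^ k)) :=
  Pool.Agent.TH707.EC.gaugeE f

end Pool.Agent.Results.MP_5f97e6_lc.GaugeThreshold
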