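import Pool.Agent.TH682.EL.Thm

/-!
# Exponential time against decision lists over arbitrary subgroups

Polynomial time is Mathlib's `Turing.TM2ComputableInPolyTime`, for functions on bit strings; `InE` is
`E`, deterministic time `2 ^ O(n)`.

A decision list over a subgroup `H` of a symmetric group is a nonuniform device for the strings `x`
of one length `n`: a list of permutations of `N` points is computed from `x`, of any length, and `x`
is accepted if and only if the number of the leading permutations of the list that are in `H` is odd
(the first permutation which is not in `H` decides; a single test `σ (x) ∈ H`, conjunctions of tests,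
and the difference hierarchy over them are special cases). The group `H` is arbitrary, and may depend
on `n` in any way: there are `2 ^ Ω(N ^ 2)` possible groups, so this is nonuniformity of
exponential size if `N` is exponential in `n`.

Theorem. (1) For every `c` and every way `f` to compute the lists in time polynomial in
`2 ^ (c n)`, from `x` and advice `a` of `n / 20` bits, there is a language in `E` which for all
lengths `n ≥ 30` is not decided by the lists, whatever `a < 2 ^ (n / 20)`, `N < 2 ^ (n / 4)` and
`H ≤ Sym (N)` are.
(2) There is one language in `E` which is not decided in this way for any polynomial-time `f`, for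
all sufficiently large `n`, with advice of `n / 20` bits, and any `N`, `H`.
(3) So no language which is hard for `E` under polynomial-time many-one reductions, and no
complement of such a language, is given by decision lists over nonuniform permutation groups whose
lists are computed in polynomial time, from `x`, `1 ^ n` and advice of `O(log n)` bits for the
strings `x` of length at most `n`.

Proof. Decision lists over one subgroup can be learned online with `N ^ 2` mistakes, for lists of any
length: a table contains permutations which are known to be in `H`, with different keys (first
point which is not fixed, its image), so at most `N ^ 2` of them. The prediction is the parity of the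
number of the leading permutations that are sifted to the identity by the table. If it is wrong, then
the next permutation must be in `H`, and it is inserted. The language in `E` is the opposite of the
predictions, for the strings with a common prefix (of length at most `n / 2`), which contains the
advice and, in (2), a program for `f`.
-/

set_option autoImplicit false

namespace Pool.Agent.Results.MP_5f97e6_lc.SubgroupLists

open Pool.Agent.NPC Pool.Agent.TH682.EL

/-- **Exponential time against decision lists over arbitrary subgroups.** -/
theorem result :
    (∀ (c : ℕ) (f : List Bool → List (List ℕ)), 0 < c → PolyTime (fun z => bits (f z)) →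
      ∃ L : Set (List Bool), InE L ∧ ∀ n a N : ℕ, 30 ≤ n → a < 2 ^ (n / 20) → N < 2 ^ (n / 4) →
        ∀ H : Subgroup (Equiv.Perm (Fin N)), ¬ ListOn n (fun x =>
          f (pairBits (bits (x, a)) (List.replicate (2 ^ (c * (n + 1))) true))) H L) ∧
    (∃ L : Set (List Bool), InE L ∧ ∀ f : List Bool → List (List ℕ),
      PolyTime (fun z => bits (f z)) → ∃ n₀, ∀ n ≥ n₀, ∀ a < 2 ^ (n / 20),
        ∀ (N : ℕ) (H : Subgroup (Equiv.Perm (Fin N))), ¬ ListOn n (fun x => f (bits (x, a))) H L) ∧
    (∀ A : Set (List Bool), EHard A → ¬ GroupList A ∧ ¬ GroupList Aᶜ) :=
  ⟨fun c f hc hf => ⟨dlang (fixG f) c,
      dlang_inE (fixG_poly (Pool.Agent.TH684.EX.poly_of_polyTime hf)) c,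
      fun _ _ _ hn ha hN H => fixed_hard hc hn ha hN H⟩,
    ⟨dlang unvG 1, dlang_inE unvG_poly 1, fun _ hf => univ_hard hf⟩,
    fun _ hA => not_groupList_of_hard hA⟩

end Pool.Agent.Results.MP_5f97e6_lc.SubgroupLists
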